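import Mathlib
import Pool.Agent.H668Z.Energy

set_option autoImplicit false

namespace Pool.Agent.Results.MP_1f5025_nt.ANoEnergyThreshold

open Filter Topology Finset

/-- distance from `y` to the nearest integer -/
noncomputable def distInt (y : ℝ) : ℝ := |y - round y|

/-- additive energy of the first `N` terms `a 0, ..., a (N - 1)`: the number of quadruples
`(i, j, k, l)` of indices below `N` with `a i + a j = a k + a l` -/
def energy (a : ℕ → ℕ) (N : ℕ) : ℕ :=
  (((range N ×ˢ range N) ×ˢ (range N ×ˢ range N)).filter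
    (fun p => a p.1.1 + a p.1.2 = a p.2.1 + a p.2.2)).card

/-- Poissonian pair correlations of the sequence `x 0, x 1, ...`: for every `s > 0`, the number of
ordered pairs `(k, l)` of distinct indices below `N` with `‖x k - x l‖ < s / N`, divided by `N`,
tends to `2 s`. -/
def HasPPC (x : ℕ → ℝ) : Prop :=
  ∀ s : ℝ, 0 < s →
    Tendsto (fun N : ℕ => (1 / (N : ℝ)) * (((range N ×ˢ range N).filter
      (fun p => p.1 ≠ p.2 ∧ distInt (x p.1 - x p.2) < s / N)).card : ℝ)) atTop (𝓝 (2 * s))

/-- Q2 has a negative answer: for every `ψ` tending to infinity and every irrational `α` there is a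
strictly increasing sequence of positive integers whose additive energy is at least `N ^ 3 / ψ N`
for all large `N` and such that the fractional parts of `a n * α` have Poissonian pair
correlations. -/
theorem result (ψ : ℕ → ℝ) (hψ : Tendsto ψ atTop atTop) (α : ℝ) (hα : Irrational α) :
    ∃ a : ℕ → ℕ, StrictMono a ∧ (∀ n, 0 < a n) ∧
      (∀ᶠ N : ℕ in atTop, (N : ℝ) ^ 3 / ψ N ≤ (energy a N : ℝ)) ∧
      HasPPC (fun n => Int.fract ((a n : ℝ) * α)) := by
  obtain ⟨a, h1, h2, h3, h4⟩ := Pool.Agent.H668Z.Energy.main ψ hψ α hα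
  refine ⟨a, h1, h2, h3, fun s hs => ?_⟩
  refine (h4 s hs).congr (fun N => ?_)
  rw [one_div, inv_mul_eq_div]
  congr 2
  unfold Pool.Agent.Results.MP_b61c36_nt.PPCCounterexample.offr
  congr 1
  ext p
  have h5 := Pool.Agent.Results.MP_b61c36_nt.PPCCounterexample.nd_fract_sub
    ((a p.1 : ℝ) * α) ((a p.2 : ℝ) * α)
  simp only [Finset.mem_filter, Finset.mem_offDiag, Finset.mem_product]
  have h6 : distInt (Int.fract ((a p.1 : ℝ) * α) - Int.fract ((a p.2 : ℝ) * α)) =
      Pool.Agent.Results.MP_b61c36_nt.PPCCounterexample.nd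
        ((a p.1 : ℝ) * α - (a p.2 : ℝ) * α) := h5
  rw [h6]
  tauto

end Pool.Agent.Results.MP_1f5025_nt.ANoEnergyThreshold
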